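import Pool.Agent.H333.Dim

/-! A simple closed curve both of whose arcs between `0` and `1` are short does not contain points
above `i` and above `1 + i`. -/

set_option autoImplicit false
open Complex Set

namespace Pool.Agent.U438.Peg

/-- three consecutive steps on the arc `[a, b]` have a total length of at most `3` -/
def Short (e : ℝ → ℂ) (a b : ℝ) : Prop :=
  ∀ s t, a ≤ s → s ≤ t → t ≤ b → ‖e s - e a‖ + ‖e t - e s‖ + ‖e b - e t‖ ≤ 3

/-- two paths that cross a rectangle in different directions meet -/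
theorem cross {f g : ℝ → ℂ} (hf : Continuous f) (hg : Continuous g) {a b a' b' : ℝ}
    (hab : a ≤ b) (hab' : a' ≤ b')
    (h1 : ∀ t ∈ Icc a' b', (f a).re < (g t).re) (h2 : ∀ t ∈ Icc a' b', (g t).re < (f b).re)
    (h3 : ∀ s ∈ Icc a b, (f s).im < (g a').im) (h4 : ∀ s ∈ Icc a b, (g b').im < (f s).im) :
    ∃ s ∈ Icc a b, ∃ t ∈ Icc a' b', f s = g t := by
  obtain ⟨k, hk⟩ : ∃ k : ℝ → ℝ → ℝ → ℝ, k = fun a b u => a + max 0 (min 1 u) * (b - a) := ⟨_, rfl⟩
  have k0 : ∀ a b, k a b 0 = a := fun a b => by simp [hk]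
  have k1 : ∀ a b, k a b 1 = b := fun a b => by simp [hk]
  have km : ∀ a b u, a ≤ b → k a b u ∈ Icc a b := fun a b u h => by
    have e1 : 0 ≤ max 0 (min 1 u) := le_max_left _ _
    have e2 : max 0 (min 1 u) ≤ 1 := max_le zero_le_one (min_le_left _ _)
    rw [hk]
    constructor
    · have := mul_nonneg e1 (sub_nonneg.2 h)
      simp only
      linarith
    · have := mul_le_mul_of_nonneg_right e2 (sub_nonneg.2 h)
      simp only
      linarith
  have kc : ∀ a b, Continuous (k a b) := fun a b => by rw [hk]; fun_prop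
  obtain ⟨p, hp⟩ := Pool.Agent.H333.miranda
    (F := fun p => f (k a b p.1) - g (k a' b' p.2))
    ((hf.comp ((kc a b).comp continuous_fst)).sub (hg.comp ((kc a' b').comp continuous_snd)))
    (fun s _ => by
      have := h1 _ (km a' b' s hab')
      simp only [k0, sub_re]
      linarith)
    (fun s _ => by
      have := h2 _ (km a' b' s hab')
      simp only [k1, sub_re]
      linarith)
    (fun s _ => by
      have := h3 _ (km a b s hab)
      simp only [k0, sub_im]
      linarith)
    (fun s _ => by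
      have := h4 _ (km a b s hab)
      simp only [k1, sub_im]
      linarith)
  exact ⟨_, km a b p.1 hab, _, km a' b' p.2 hab', sub_eq_zero.1 hp⟩

theorem le_re (z : ℂ) : |z.re| ≤ ‖z‖ := abs_re_le_norm z
theorem le_im (z : ℂ) : |z.im| ≤ ‖z‖ := abs_im_le_norm z

/-- the crossing argument -/
theorem caseI {e : ℝ → ℂ} (he : Continuous e) {x p y q z M : ℝ} (hxp : x ≤ p) (hpy : p ≤ y)
    (hyq : y ≤ q) (hqz : q ≤ z) (hM : ∀ t, ‖e t‖ + 2 ≤ M)
    (ex : e x = 0) (ey : e y = 1) (ez : e z = 0)
    (hinj : ∀ s ∈ Icc p y, ∀ t ∈ Icc q z, e s ≠ e t)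
    (hP : (e p).re ≤ 0 ∧ 1 < (e p).im) (hQ : 1 ≤ (e q).re ∧ 1 < (e q).im)
    (h1 : Short e x y) (h2 : Short e y z) : False := by
  obtain ⟨P1, P2⟩ := hP
  obtain ⟨Q1, Q2⟩ := hQ
  have M0 : 2 ≤ M := (by linarith [norm_nonneg (e 0)] : 2 ≤ ‖e 0‖ + 2).trans (hM 0)
  -- the forbidden regions
  have F1 : ∀ s ∈ Icc p y, ¬ (1 ≤ (e s).re ∧ 1 < (e s).im) := by
    rintro s ⟨s1, s2⟩ ⟨r1, r2⟩
    have := h1 p s hxp s1 s2
    rw [ex, ey] at this
    have a1 := (le_abs_self _).trans (le_im (e p - 0))
    have a2 := (le_abs_self _).trans (le_re (e s - e p))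
    have a3 := (neg_le_abs _).trans (le_im (1 - e s))
    simp only [sub_im, sub_re, zero_im, one_im] at a1 a2 a3
    linarith
  have F2 : ∀ s ∈ Icc p y, ¬ ((e s).re = 0 ∧ (e s).im ≤ 0) := by
    rintro s ⟨s1, s2⟩ ⟨r1, r2⟩
    have := h1 p s hxp s1 s2
    rw [ex, ey] at this
    have a1 := (le_abs_self _).trans (le_im (e p - 0))
    have a2 := (neg_le_abs _).trans (le_im (e s - e p))
    have a3 := (le_abs_self _).trans (le_re (1 - e s))
    simp only [sub_im, sub_re, zero_im, one_re] at a1 a2 a3
    linarith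
  have G1 : ∀ t ∈ Icc q z, ¬ ((e t).re ≤ 0 ∧ 1 < (e t).im) := by
    rintro s ⟨s1, s2⟩ ⟨r1, r2⟩
    have := h2 q s hyq s1 s2
    rw [ez, ey] at this
    have a1 := (le_abs_self _).trans (le_im (e q - 1))
    have a2 := (neg_le_abs _).trans (le_re (e s - e q))
    have a3 := (neg_le_abs _).trans (le_im (0 - e s))
    simp only [sub_im, sub_re, zero_im, one_im] at a1 a2 a3
    linarith
  have G2 : ∀ t ∈ Icc q z, ¬ ((e t).re = 1 ∧ (e t).im ≤ 0) := by
    rintro s ⟨s1, s2⟩ ⟨r1, r2⟩
    have := h2 q s hyq s1 s2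
    rw [ez, ey] at this
    have a1 := (le_abs_self _).trans (le_im (e q - 1))
    have a2 := (neg_le_abs _).trans (le_im (e s - e q))
    have a3 := (neg_le_abs _).trans (le_re (0 - e s))
    simp only [sub_im, sub_re, zero_re, one_im] at a1 a2 a3
    linarith
  have bre : ∀ t, -(M - 2) ≤ (e t).re ∧ (e t).re ≤ M - 2 := fun t => by
    have a1 := abs_le.1 (le_re (e t))
    have a2 := hM t
    exact ⟨by linarith [a1.1], by linarith [a1.2]⟩
  have bim : ∀ t, -(M - 2) ≤ (e t).im ∧ (e t).im ≤ M - 2 := fun t => by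
    have a1 := abs_le.1 (le_im (e t))
    have a2 := hM t
    exact ⟨by linarith [a1.1], by linarith [a1.2]⟩
  -- the paths
  obtain ⟨f, hf⟩ : ∃ f : ℝ → ℂ, f = fun s => e (max p (min y s)) - (max 0 (p - s) : ℝ)
      - I * (min (max 0 (s - y)) M : ℝ) + (max 0 (s - y - M) : ℝ) := ⟨_, rfl⟩
  obtain ⟨g, hg⟩ : ∃ g : ℝ → ℂ, g = fun t => e (max q (min z t)) + I * (max 0 (q - t) : ℝ)
      - I * (max 0 (t - z) : ℝ) := ⟨_, rfl⟩
  have fre : ∀ s, (f s).re = (e (max p (min y s))).re - max 0 (p - s) + max 0 (s - y - M) := by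
    intro s; rw [hf]; simp
  have fim : ∀ s, (f s).im = (e (max p (min y s))).im - min (max 0 (s - y)) M := by
    intro s; rw [hf]; simp
  have gre : ∀ t, (g t).re = (e (max q (min z t))).re := by
    intro s; rw [hg]; simp
  have gim : ∀ t, (g t).im = (e (max q (min z t))).im + max 0 (q - t) - max 0 (t - z) := by
    intro s; rw [hg]; simp
  have cf : Continuous f := by rw [hf]; fun_prop
  have cg : Continuous g := by rw [hg]; fun_prop
  obtain ⟨s, hs, t, ht, hst⟩ := cross cf cg (a := p - 2 * M) (b := y + 3 * M) (a' := q - 2 * M)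
    (b' := z + 2 * M) (by linarith) (by linarith)
    (fun t _ => by
      rw [fre, gre]
      have b1 := (bre (max p (min y (p - 2 * M)))).2
      have b2 := (bre (max q (min z t))).1
      have b3 : max 0 (p - (p - 2 * M)) = 2 * M := by rw [max_eq_right] <;> linarith
      have b4 : max 0 (p - 2 * M - y - M) = 0 := by rw [max_eq_left]; linarith
      rw [b3, b4]; linarith)
    (fun t _ => by
      rw [fre, gre]
      have b1 := (bre (max p (min y (y + 3 * M)))).1
      have b2 := (bre (max q (min z t))).2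
      have b3 : max 0 (p - (y + 3 * M)) = 0 := by rw [max_eq_left]; linarith
      have b4 : max 0 (y + 3 * M - y - M) = 2 * M := by rw [max_eq_right] <;> linarith
      rw [b3, b4]; linarith)
    (fun s _ => by
      rw [fim, gim]
      have b1 := (bim (max p (min y s))).2
      have b2 := (bim (max q (min z (q - 2 * M)))).1
      have b3 : max 0 (q - (q - 2 * M)) = 2 * M := by rw [max_eq_right] <;> linarith
      have b4 : max 0 (q - 2 * M - z) = 0 := by rw [max_eq_left]; linarith
      have b5 : 0 ≤ min (max 0 (s - y)) M := le_min (le_max_left _ _) (by linarith)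
      rw [b3, b4]; linarith)
    (fun s _ => by
      rw [fim, gim]
      have b1 := (bim (max p (min y s))).1
      have b2 : max q (min z (z + 2 * M)) = z := by
        rw [min_eq_left (by linarith), max_eq_right hqz]
      have b3 : max 0 (q - (z + 2 * M)) = 0 := by rw [max_eq_left]; linarith
      have b4 : max 0 (z + 2 * M - z) = 2 * M := by rw [max_eq_right] <;> linarith
      have b5 : min (max 0 (s - y)) M ≤ M := min_le_right _ _
      rw [b2, b3, b4, ez, zero_im]; linarith)
  have hre := congrArg re hst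
  have him := congrArg im hst
  rw [fre, gre] at hre
  rw [fim, gim] at him
  -- the first path
  have cases1 : (s < p ∧ (f s).re ≤ 0 ∧ 1 < (f s).im) ∨ (p ≤ s ∧ s ≤ y ∧ f s = e s) ∨
      ((f s).re = 1 ∧ (f s).im ≤ 0) ∨ (1 ≤ (f s).re ∧ (f s).im = -M) := by
    rcases lt_or_ge s p with h | h
    · left
      have c1 : max p (min y s) = p := by rw [min_eq_right (by linarith), max_eq_left h.le]
      have c2 : max 0 (s - y) = 0 := by rw [max_eq_left]; linarith
      have c3 : max 0 (s - y - M) = 0 := by rw [max_eq_left]; linarith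
      have c4 : 0 ≤ max 0 (p - s) := le_max_left _ _
      have c5 : min (0:ℝ) M = 0 := min_eq_left (by linarith)
      refine ⟨h, ?_, ?_⟩
      · rw [fre, c1, c3]; linarith
      · rw [fim, c1, c2, c5]; linarith
    · right
      have c0 : max 0 (p - s) = 0 := by rw [max_eq_left]; linarith
      rcases le_or_gt s y with h' | h'
      · left
        refine ⟨h, h', ?_⟩
        have c1 : max p (min y s) = s := by rw [min_eq_right h', max_eq_right h]
        have c2 : max 0 (s - y) = 0 := by rw [max_eq_left]; linarith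
        have c3 : max 0 (s - y - M) = 0 := by rw [max_eq_left]; linarith
        have c5 : min (0:ℝ) M = 0 := min_eq_left (by linarith)
        rw [hf]
        simp only [c0, c1, c2, c3, c5]
        simp
      · right
        have c1 : max p (min y s) = y := by rw [min_eq_left h'.le, max_eq_right hpy]
        have c2 : max 0 (s - y) = s - y := by rw [max_eq_right]; linarith
        rcases le_or_gt (s - y) M with h'' | h''
        · left
          have c3 : max 0 (s - y - M) = 0 := by rw [max_eq_left]; linarith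
          have c4 : min (s - y) M = s - y := min_eq_left h''
          constructor
          · rw [fre, c0, c1, c3, ey, one_re]; ring
          · rw [fim, c1, c2, c4, ey, one_im]; linarith
        · right
          have c3 : 0 ≤ max 0 (s - y - M) := le_max_left _ _
          have c4 : min (s - y) M = M := min_eq_right h''.le
          constructor
          · rw [fre, c0, c1, ey, one_re]; linarith
          · rw [fim, c1, c2, c4, ey, one_im]; ring
  have cases2 : (1 ≤ (g t).re ∧ 1 < (g t).im) ∨ (q ≤ t ∧ t ≤ z ∧ g t = e t) ∨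
      ((g t).re = 0 ∧ (g t).im ≤ 0) := by
    rcases lt_or_ge t q with h | h
    · left
      have c1 : max q (min z t) = q := by rw [min_eq_right (by linarith), max_eq_left h.le]
      have c2 : max 0 (t - z) = 0 := by rw [max_eq_left]; linarith
      have c4 : 0 ≤ max 0 (q - t) := le_max_left _ _
      constructor
      · rw [gre, c1]; exact Q1
      · rw [gim, c1, c2]; linarith
    · right
      have c0 : max 0 (q - t) = 0 := by rw [max_eq_left]; linarith
      rcases le_or_gt t z with h' | h'
      · left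
        refine ⟨h, h', ?_⟩
        have c1 : max q (min z t) = t := by rw [min_eq_right h', max_eq_right h]
        have c2 : max 0 (t - z) = 0 := by rw [max_eq_left]; linarith
        rw [hg]
        simp only [c0, c1, c2]
        simp
      · right
        have c1 : max q (min z t) = z := by rw [min_eq_left h'.le, max_eq_right hqz]
        have c2 : max 0 (t - z) = t - z := by rw [max_eq_right]; linarith
        constructor
        · rw [gre, c1, ez, zero_re]
        · rw [gim, c0, c1, c2, ez, zero_im]; linarith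
  rcases cases1 with ⟨-, i1, i2⟩ | ⟨i1, i2, i3⟩ | ⟨i1, i2⟩ | ⟨i1, i2⟩
  · rcases cases2 with ⟨j1, j2⟩ | ⟨j1, j2, j3⟩ | ⟨j1, j2⟩
    · rw [← hst] at j1; linarith
    · rw [hst, j3] at i1 i2
      exact G1 t ⟨j1, j2⟩ ⟨i1, i2⟩
    · rw [← hst] at j2; linarith
  · rcases cases2 with ⟨j1, j2⟩ | ⟨j1, j2, j3⟩ | ⟨j1, j2⟩
    · rw [← hst, i3] at j1 j2
      exact F1 s ⟨i1, i2⟩ ⟨j1, j2⟩
    · exact hinj s ⟨i1, i2⟩ t ⟨j1, j2⟩ (by rw [← i3, ← j3, hst])
    · rw [← hst, i3] at j1 j2
      exact F2 s ⟨i1, i2⟩ ⟨j1, j2⟩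
  · rcases cases2 with ⟨j1, j2⟩ | ⟨j1, j2, j3⟩ | ⟨j1, j2⟩
    · rw [← hst] at j2; linarith
    · rw [hst, j3] at i1 i2
      exact G2 t ⟨j1, j2⟩ ⟨i1, i2⟩
    · rw [← hst] at j1; linarith
  · rcases cases2 with ⟨j1, j2⟩ | ⟨j1, j2, j3⟩ | ⟨j1, j2⟩
    · rw [← hst] at j2; linarith
    · rw [hst, j3] at i2
      have := (bim t).1
      linarith
    · rw [← hst] at j1; linarith

end Pool.Agent.U438.Peg
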