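import Pool.Agent.TH569.Peg.A
import Pool.Agent.U438.Peg.Plan

/-! Chords of a Jordan curve both of whose arcs are short, and loops of such chords. -/

set_option autoImplicit false
open Complex Set Topology Metric

namespace Pool.Agent.U438.Peg

open Pool.Agent.H763R2 Pool.Agent.H763R2.An Pool.Agent.H765R3.Peg Pool.Agent.W675.Peg
open Pool.Agent.H763R2.Dm (NoSq floor_const)

theorem Short.neg {e : ℝ → ℂ} {a b : ℝ} (h : Short e a b) : Short (fun t => e (-t)) (-b) (-a) := by
  intro s t h1 h2 h3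
  have := h (-t) (-s) (by linarith) (by linarith) (by linarith)
  simp only [neg_neg]
  rw [norm_sub_rev (e (-s)) (e b), norm_sub_rev (e (-t)) (e (-s)), norm_sub_rev (e a) (e (-t))]
  linarith

/-- an arc with short steps does not reach both regions -/
theorem not_both {e : ℝ → ℂ} {a b p q : ℝ} (ha : (e a).im ≤ 0) (hb : (e b).im ≤ 0)
    (h : Short e a b) (hp : p ∈ Icc a b) (hq : q ∈ Icc a b)
    (hP : (e p).re ≤ 0 ∧ 1 < (e p).im) (hQ : 1 ≤ (e q).re ∧ 1 < (e q).im) : False := by
  rcases le_total p q with hpq | hpq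
  · have := h p q hp.1 hpq hq.2
    have a1 := (le_abs_self _).trans (le_im (e p - e a))
    have a2 := (le_abs_self _).trans (le_re (e q - e p))
    have a3 := (neg_le_abs _).trans (le_im (e b - e q))
    simp only [sub_im, sub_re] at a1 a2 a3
    linarith [hP.1, hP.2, hQ.1, hQ.2]
  · have := h q p hq.1 hpq hp.2
    have a1 := (le_abs_self _).trans (le_im (e q - e a))
    have a2 := (neg_le_abs _).trans (le_re (e p - e q))
    have a3 := (neg_le_abs _).trans (le_im (e b - e p))
    simp only [sub_im, sub_re] at a1 a2 a3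
    linarith [hP.1, hP.2, hQ.1, hQ.2]

/-- a closed simple curve with short arcs between `0` and `1` -/
theorem planar {e : ℝ → ℂ} (L : Loop e) (J : Inj e) {x y : ℝ} (hxy : x < y) (hyx : y < x + 1)
    (ex : e x = 0) (ey : e y = 1) (h1 : Short e x y) (h2 : Short e y (x + 1))
    {p q : ℝ} (hP : (e p).re ≤ 0 ∧ 1 < (e p).im) (hQ : 1 ≤ (e q).re ∧ 1 < (e q).im) : False := by
  have ez : e (x + 1) = 0 := by rw [L.per, ex]
  have lift : ∀ t, ∃ t' ∈ Ico x (x + 1), e t' = e t := by
    intro t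
    refine ⟨t - ⌊t - x⌋, ⟨by linarith [Int.floor_le (t - x)],
      by linarith [Int.lt_floor_add_one (t - x)]⟩, ?_⟩
    have := L.per_int (t - ⌊t - x⌋) ⌊t - x⌋
    rw [sub_add_cancel] at this
    exact this.symm
  obtain ⟨R, hR⟩ := L.compact.isBounded.subset_closedBall 0
  have hM : ∀ t, ‖e t‖ + 2 ≤ R + 2 := fun t => by
    have := hR (mem_range_self t)
    rw [mem_closedBall, dist_zero_right] at this
    linarith
  obtain ⟨p', ⟨p1, p2⟩, ep⟩ := lift p
  obtain ⟨q', ⟨q1, q2⟩, eq⟩ := lift q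
  rw [← ep] at hP
  rw [← eq] at hQ
  have p1' : x < p' := by
    rcases p1.eq_or_lt with h | h
    · exfalso; rw [← h, ex, zero_im] at hP; linarith [hP.2]
    · exact h
  have q1' : x < q' := by
    rcases q1.eq_or_lt with h | h
    · exfalso; rw [← h, ex, zero_im] at hQ; linarith [hQ.2]
    · exact h
  have py : p' ≠ y := by rintro rfl; rw [ey, one_im] at hP; linarith [hP.2]
  have qy : q' ≠ y := by rintro rfl; rw [ey, one_im] at hQ; linarith [hQ.2]
  rcases lt_or_gt_of_ne py with hp | hp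
  · rcases lt_or_gt_of_ne qy with hq | hq
    · exact not_both (by rw [ex]; simp) (by rw [ey]; simp) h1 ⟨p1, hp.le⟩ ⟨q1, hq.le⟩ hP hQ
    · exact caseI L.cont p1 hp.le hq.le q2.le hM ex ey ez
        (fun s hs t ht => J s t (by linarith [hs.2, ht.1]) (by linarith [hs.1, ht.2])) hP hQ h1 h2
  · rcases lt_or_gt_of_ne qy with hq | hq
    · refine caseI (e := fun t => e (-t)) (L.cont.comp continuous_neg) (x := -(x + 1)) (p := -p')
        (y := -y) (q := -q') (z := -x) (M := R + 2) (by linarith) (by linarith) (by linarith)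
        (by linarith) (fun t => hM _) (by simp only [neg_neg]; exact ez)
        (by simp only [neg_neg]; exact ey) (by simp only [neg_neg]; exact ex) ?_
        (by simp only [neg_neg]; exact hP) (by simp only [neg_neg]; exact hQ) h2.neg h1.neg
      intro s hs t ht h
      exact J (-t) (-s) (by linarith [hs.2, ht.1]) (by linarith [hs.1, ht.2]) h.symm
    · exact not_both (by rw [ey]; simp) (by rw [ez]; simp) h2 ⟨hp.le, p2.le⟩ ⟨hq.le, q2.le⟩ hP hQ

variable {c : ℝ → ℂ}

/-- three consecutive steps on the arc `[a, b]` of `c` have a total length of at most `3 ℓ` -/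
def ShortL (c : ℝ → ℂ) (ℓ a b : ℝ) : Prop :=
  ∀ s t, a ≤ s → s ≤ t → t ≤ b → ‖c s - c a‖ + ‖c t - c s‖ + ‖c b - c t‖ ≤ 3 * ℓ

/-- the square to the left of a chord with short arcs -/
theorem good (L : Loop c) (J : Inj c) {x y : ℝ} (hxy : x < y) (hyx : y < x + 1)
    (h1 : ShortL c ‖c y - c x‖ x y) (h2 : ShortL c ‖c y - c x‖ y (x + 1)) :
    mgc c (DD c x y) ≤ 0 ∨ mgc c (CC c x y) ≤ 0 := by
  by_contra hcon
  push Not at hcon
  obtain ⟨g1, g2⟩ := hcon
  have hw : c y - c x ≠ 0 := sub_ne_zero.2 (J x y hxy hyx).symm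
  obtain ⟨w, hwd⟩ : ∃ w, w = c y - c x := ⟨_, rfl⟩
  rw [← hwd] at hw h1 h2
  have hn : 0 < ‖w‖ := norm_pos_iff.2 hw
  have hIw : I * w ≠ 0 := mul_ne_zero I_ne_zero hw
  obtain ⟨s, hs, p, hp⟩ := ray L hIw g1.le
  obtain ⟨s', hs', q, hq⟩ := ray L hIw g2.le
  have s0 : 0 < s := by
    rcases hs.eq_or_lt with h | h
    · exfalso
      rw [← h] at hp
      have : mgc c (DD c x y) = 0 := ((mgc_sg L).zero L).2 ⟨p, by rw [hp]; simp⟩
      linarith
    · exact h
  have s0' : 0 < s' := by
    rcases hs'.eq_or_lt with h | h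
    · exfalso
      rw [← h] at hq
      have : mgc c (CC c x y) = 0 := ((mgc_sg L).zero L).2 ⟨q, by rw [hq]; simp⟩
      linarith
    · exact h
  obtain ⟨e, he⟩ : ∃ e : ℝ → ℂ, e = fun t => (c t - c x) / w := ⟨_, rfl⟩
  have he' : ∀ t, e t = (c t - c x) / w := fun t => by rw [he]
  have Le : Loop e := by
    refine ⟨?_, fun t => ?_⟩
    · rw [he]
      exact (L.cont.sub continuous_const).div_const _
    · rw [he', he', L.per]
  have Je : Inj e := by
    intro a b ha hb hab
    rw [he', he', div_left_inj' hw, sub_left_inj] at hab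
    exact J a b ha hb hab
  have hsh : ∀ a b, ShortL c ‖w‖ a b → Short e a b := by
    intro a b h s t i1 i2 i3
    have := h s t i1 i2 i3
    have k : ∀ u v, ‖e u - e v‖ = ‖c u - c v‖ / ‖w‖ := by
      intro u v
      rw [he', he', ← sub_div, norm_div]
      congr 2
      ring
    rw [k, k, k, ← add_div, ← add_div, div_le_iff₀ hn]
    exact this
  refine planar Le Je hxy hyx (p := p) (q := q) (by rw [he']; simp)
    (by rw [he', ← hwd]; exact div_self hw) (hsh _ _ h1) (hsh _ _ h2) ?_ ?_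
  · have : e p = I + s * I := by
      rw [he', hp, DD_eq, ← hwd]
      field_simp
      ring
    rw [this]
    simp
    exact s0
  · have : e q = 1 + I + s' * I := by
      rw [he', hq, CC_eq, ← hwd]
      field_simp
      rw [hwd]
      ring
    rw [this]
    simp
    exact s0'

/-- loops of chords with short arcs -/
theorem loop (L : Loop c) (J : Inj c) (nosq : NoSq (range c)) {x y : ℝ → ℝ}
    (hx : ContinuousOn x (Icc 0 1)) (hy : ContinuousOn y (Icc 0 1))
    (hxy : ∀ s ∈ Icc (0:ℝ) 1, x s < y s ∧ y s < x s + 1) (hend : x 1 = x 0 + 1 ∧ y 1 = y 0 + 1)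
    (h : ∀ s ∈ Icc (0:ℝ) 1, ShortL c ‖c (y s) - c (x s)‖ (x s) (y s) ∧
      ShortL c ‖c (y s) - c (x s)‖ (y s) (x s + 1)) : False := by
  obtain ⟨θ, g, A, ho⟩ := exists_odd L J nosq
  have hπ := Real.pi_pos
  obtain ⟨cl, hcl⟩ : ∃ cl : ℝ → ℝ, cl = fun s => max 0 (min 1 s) := ⟨_, rfl⟩
  have ccl : Continuous cl := by rw [hcl]; fun_prop
  have m : ∀ s, cl s ∈ Icc (0:ℝ) 1 := fun s => by
    rw [hcl]; exact ⟨le_max_left _ _, max_le zero_le_one (min_le_left _ _)⟩
  have cl0 : cl 0 = 0 := by simp [hcl]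
  have cl1 : cl 1 = 1 := by simp [hcl]
  have cx : Continuous fun s => x (cl s) := hx.comp_continuous ccl m
  have cy : Continuous fun s => y (cl s) := hy.comp_continuous ccl m
  have fl := path_floor A (p := fun s => (x (cl s), y (cl s))) (cx.prodMk cy)
    (fun s => hxy _ (m s))
    (fun s => good L J (hxy _ (m s)).1 (hxy _ (m s)).2 (h _ (m s)).1 (h _ (m s)).2) 0 1
  simp only [cl0, cl1, hend.1, hend.2] at fl
  have h0 := hxy 0 (by norm_num)
  rw [A.per _ _ h0.1 h0.2] at fl
  have h5 : (θ (x 0) (y 0) + g * (2 * Real.pi) - Real.pi / 2) / (2 * Real.pi) =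
      (θ (x 0) (y 0) - Real.pi / 2) / (2 * Real.pi) + g := by
    field_simp; ring
  rw [h5, Int.floor_add_intCast] at fl
  have h6 : g = 0 := by omega
  rw [h6] at ho
  exact absurd ho (by decide)

end Pool.Agent.U438.Peg
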